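import Pool.Agent.helper57.PP.Spec

set_option autoImplicit false

namespace Pool.Agent.helper57.PP

open Finset

theorem QOUT (h1 : INR_stmt) : QOUT_stmt := by
  intro W _ T R a z bs ts C hD hS v hv hvC hvR
  obtain ⟨hsub, -⟩ := h1 W T R a z bs ts C hD hS v hvC (Or.inl hvR)
  have hvt : v ∈ pth a ts z := by
    simp only [pth, List.mem_cons, List.mem_append]
    exact Or.inr (Or.inl hv)
  obtain ⟨e, he, hve⟩ := exists_pe_of_mem hvt
  have hbT : e ∈ bd T := by
    rw [hD.bdT]
    exact mem_union_right _ he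
  have hcof : cof R e = cof T e := by
    refine subset_antisymm (cof_mono hS.sub e) ?_
    intro t ht
    have h2 : t ∈ cof T {v} := cof_anti T (singleton_subset_iff.2 hve) ht
    exact mem_cof.2 ⟨hsub h2, (mem_cof.1 ht).2⟩
  have hbR : e ∈ bd R := by
    rw [mem_bd] at hbT ⊢
    rw [hcof]
    exact hbT
  rw [hS.bdR, mem_symmDiff] at hbR
  have hnC : e ∉ pe C := fun h => hvC (mem_of_mem_pe h hve)
  have hb : e ∈ pe (pth a bs z) := by
    rcases hbR with h | h
    · exact h.1
    · exact absurd h.1 hnC
  have hvb : v ∈ pth a bs z := mem_of_mem_pe hb hve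
  have hnd := hD.nd
  simp only [pth, List.mem_cons, List.mem_append, List.mem_nil_iff, or_false] at hvb
  rw [List.nodup_cons, List.nodup_cons] at hnd
  obtain ⟨ha, hz, hbt⟩ := hnd
  rcases hvb with rfl | hvb | rfl
  · exact ha (List.mem_cons_of_mem _ (List.mem_append_right _ hv))
  · exact (List.disjoint_of_nodup_append hbt) hvb hv
  · exact hz (List.mem_append_right _ hv)

end Pool.Agent.helper57.PP
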